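import Pool.Agent.R196.PP.Pos

/-!
# A walk on a point process with infinite second moment of the gaps and a quenched CLT

There is a probability measure `Q` on `{0,1}^{ℤ²}`, stationary and ergodic under each of the two
coordinate shifts, with `Q(ω ≡ 0) < 1`, such that `E_P[f_{e₁}²] = ∞` and nevertheless the random
walk on the point process satisfies the (quenched) central limit theorem, with a positive definite
covariance matrix.

The definitions (`Conf`, `shiftConf`, `gap`, `nextPt`, `walkLaw`, `rescale`, `scaledLaw`, `Om0`,
`IsPointProcess`) are in `Pool/Agent/R196/PP/Stmt.lean`.

Construction.  Put `p = x + y`, `q = x - y`.  With phases `(α, β)` uniform on `ℤ_3 × ℤ_5` remove the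
point `(x,y)` if for some `k ≥ 1` the distance of `p + α` to `M_k ℤ` and that of `q + β` to `N_k ℤ`
are both `< L_k`, where `M_k = 3^{a_k}`, `N_k = 5^{b_k}`, `2 L_k + 1` is an odd multiple of
`M_{k-1} N_{k-1}` and `M_k, N_k` are about `κ_k² L_k` with `κ_k` and `L_k` growing very fast.  So the
holes are diamonds `{|x|+|y| < L_k}`; their boundaries are completely occupied.

Proof.  A walk at the boundary of a diamond jumps to one of two antipodal boundary points, which
shows by the maximum principle that the harmonic coordinates of the periodic level-`k` environment
are at distance at most `5 L_k` from the identity, much less than the distance of the holes.  An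
energy comparison (an explicit divergence free flow across the holes) shows that the local variances
of consecutive levels are close in mean, Hopf's maximal inequality turns this into a statement for
all times along typical starting points, and the characteristic function of the martingale is
estimated with the help of the Poisson equation of the previous level, in the time window in which
the walk does not see the holes of the next level.
-/

namespace Pool.Agent.Results.MP_68f671_pr.InfiniteSecondMoment

open MeasureTheory ProbabilityTheory Filter Topology Pool.Agent.R196.PP
open scoped ENNReal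

/-- There is a stationary ergodic point process `Q` in `ℤ²` with `E_P[f_e²] = ∞` for some `e` whose
walk satisfies a CLT: for `P`-a.e. `ω`, `X_n/√n` converges in distribution under `P_ω` to `N(0,D)`
for a deterministic positive definite matrix `D`. -/
theorem result : ∃ Q : Measure (Conf 2), IsPointProcess 2 Q ∧
    (∃ e : Fin 2 × Bool,
      ∫⁻ ω, ((gap ω 0 e : ℕ) : ℝ≥0∞) ^ 2 ∂(ProbabilityTheory.cond Q (Om0 2)) = ∞) ∧
    ∃ D : Matrix (Fin 2) (Fin 2) ℝ, D.PosDef ∧
      ∀ᵐ ω ∂(ProbabilityTheory.cond Q (Om0 2)),
        Tendsto (fun n : ℕ => scaledLaw ω n) atTop
          (𝓝 (⟨multivariateGaussian 0 D, inferInstance⟩ :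
            ProbabilityMeasure (EuclideanSpace ℝ (Fin 2)))) :=
  main2

end Pool.Agent.Results.MP_68f671_pr.InfiniteSecondMoment
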